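import Pool.Agent.Y697.CQ.Key

/-!
# CQ-KEY: the sum over the boxes, second part
-/

set_option autoImplicit false

namespace Pool.Agent.Y697.CQ

open Finset
open Pool.Agent.Y703.CX (sm la jj XX)
open Pool.Agent.Y703.CQ
open Pool.Agent.Y697.CX (le_XX sm_union sm_disj prod_split card_split fcc root_le card_sub sum_inv)
open scoped Classical

theorem hb_box {C₁ : ℝ} (hb1 : ∀ (P Q : Finset ℕ) (A B z : ℕ) (c d : ℕ → ℂ),
      (∀ p ∈ P, p.Prime ∧ p % 8 = 1 ∧ p ≤ A) → (∀ q ∈ Q, q.Prime ∧ q ≠ 2 ∧ q ≤ B) →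
      Disjoint P Q → 1 ≤ z → z ≤ A → z ≤ B → (∀ p, ‖c p‖ ≤ 1) → (∀ q, ‖d q‖ ≤ 1) →
      ‖∑ p ∈ P, ∑ q ∈ Q, c p * d q * sg (nr p q)‖ ^ 12 * z ≤ C₁ * ((A : ℝ) * B) ^ 12)
    {ι : Type} (J1 : Finset ι) (D : ι → Finset ℕ) (X : ι → ℕ) {z : ℕ} {κ : ℝ}
    (hz : 1 ≤ z) (hκ : 0 ≤ κ) (h1 : C₁ ≤ κ ^ 12 * z)
    (hX : ∀ i, z ≤ X i) (hD : ∀ i, ∀ p ∈ D i, p.Prime ∧ p ≠ 2 ∧ p ≤ X i ∧ (i ∈ J1 → p % 8 = 1))
    (hdis : ∀ i l, i ≠ l → Disjoint (D i) (D l)) :
    HB J1 D X κ := by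
  intro i l hil hi c d hc hd
  refine root_le (norm_nonneg _) (by positivity) hκ hz (hb1 (D i) (D l) (X i) (X l) z c d
    (fun p hp => ?_) (fun q hq => ?_) (hdis i l hil) hz (hX i) (hX l) hc hd) h1
  · obtain ⟨k1, k2, k3, k4⟩ := hD i p hp
    exact ⟨k1, k4 hi, k3⟩
  · obtain ⟨k1, k2, k3, -⟩ := hD l q hq
    exact ⟨k1, k2, k3⟩

theorem per_key (hE : S_EQ) (hL : S_LA) (hB : S_BOX) {C₁ : ℝ}
    (hb1 : ∀ (P Q : Finset ℕ) (A B z : ℕ) (c d : ℕ → ℂ),
      (∀ p ∈ P, p.Prime ∧ p % 8 = 1 ∧ p ≤ A) → (∀ q ∈ Q, q.Prime ∧ q ≠ 2 ∧ q ≤ B) →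
      Disjoint P Q → 1 ≤ z → z ≤ A → z ≤ B → (∀ p, ‖c p‖ ≤ 1) → (∀ q, ‖d q‖ ≤ 1) →
      ‖∑ p ∈ P, ∑ q ∈ Q, c p * d q * sg (nr p q)‖ ^ 12 * z ≤ C₁ * ((A : ℝ) * B) ^ 12)
    {I K : Finset ℕ} (f : ℕ → ZMod 2) (hI : Ok I K)
    {X z H k V : ℕ} {κ : ℝ} (hH : 1 ≤ H) (hz : 1 ≤ z) (hκ : 0 ≤ κ)
    (h1 : C₁ ≤ κ ^ 12 * z) {S₀ J : Finset ℕ}
    (hkey : (S₀, J) ∈ (RR I K X z H k V).image (ky z H)) :
    |(((RR I K X z H k V).filter fun S => ky z H S = (S₀, J) ∧
        (Nd (sm z S) (la z S) ∧ Gd f S)).card : ℝ) -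
      c2 * (((RR I K X z H k V).filter fun S => ky z H S = (S₀, J) ∧
        Nd (sm z S) (la z S)).card : ℝ)| ≤
    2 * (1 / 2 : ℝ) ^ V * (((RR I K X z H k V).filter fun S => ky z H S = (S₀, J) ∧ True).card : ℝ) +
      (3 ^ (3 * k ^ 2) * κ) * (X * (1 / ((∏ p ∈ S₀, p : ℕ) : ℝ))) := by
  obtain ⟨h₀O, h₀, hJi, hCd, hJf⟩ := key_facts hI hH hkey
  obtain ⟨c1, c2', c4, c5, c6, c7⟩ := hCd
  set J1 : Finset J := univ.filter fun i : J => i.1 % 8 = 1 with hJ1
  have hmJ1 : ∀ i : J, i ∈ J1 ↔ i.1 % 8 = 1 := fun i => by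
    rw [hJ1, Finset.mem_filter]
    exact ⟨fun h => h.2, fun h => ⟨Finset.mem_univ _, h⟩⟩
  have hcJ : Fintype.card J = J.card := Fintype.card_coe J
  have hcardf : ∀ (Q : ℕ → Prop) [DecidablePred Q],
      (univ.filter fun i : J => Q i.1).card = (J.filter Q).card := by
    intro Q _
    rw [← Finset.card_map (Function.Embedding.subtype fun x => x ∈ J)]
    congr 1
    ext x
    simp only [Finset.mem_map, Finset.mem_filter, Finset.mem_univ, true_and,
      Function.Embedding.coe_subtype, Subtype.exists, exists_and_left, exists_prop,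
      exists_eq_right_right]
    tauto
  have hJ1c : J1.card = (J.filter fun i => i % 8 = 1).card := by
    rw [hJ1, ← hcardf fun i => i % 8 = 1]
  have hCmem : ∀ i : J, ∀ p ∈ CC I z H i, (Sp p ∨ In I p) ∧ z < p ∧ p ≤ XX H (i.1 / 8) ∧
      p % 8 = i.1 % 8 := by
    intro i p hp
    obtain ⟨k1, k2, k3⟩ := (mem_CC hH).1 hp
    refine ⟨k1, k2, ?_, ?_⟩
    · have := le_XX hH (in_prime k1).one_lt.le
      rw [← k3, ph_div]
      exact this
    · rw [← k3, ph_mod]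
  have hne2 : ∀ p : ℕ, (Sp p ∨ In I p) → p ≠ 2 := by
    intro p hp h
    have := in_mod hI hp
    omega
  have hdis : ∀ i l : J, i ≠ l → Disjoint (CC I z H (i : ℕ)) (CC I z H (l : ℕ)) := by
    intro i l hil
    rw [Finset.disjoint_left]
    intro p hp hp'
    have h5 := ((mem_CC hH).1 hp).2.2
    have h6 := ((mem_CC hH).1 hp').2.2
    exact hil (Subtype.ext (h5.symm.trans h6))
  have hHB : HB J1 (fun i : J => CC I z H i) (fun i : J => XX H (i.1 / 8)) κ :=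
    hb_box hb1 J1 _ _ hz hκ h1 (fun i => (hJf i i.2).2.1)
      (fun i p hp => by
        obtain ⟨k1, k2, k3, k4⟩ := hCmem i p hp
        exact ⟨in_prime k1, hne2 p k1, k3, fun h => k4.trans ((hmJ1 i).1 h)⟩) hdis
  have hcard : ∀ i : J, (CC I z H (i : ℕ)).card ≤ XX H (i.1 / 8) := by
    intro i
    have h3 : CC I z H (i : ℕ) ⊆ Finset.Icc 1 (XX H (i.1 / 8)) := by
      intro p hp
      obtain ⟨k1, k2, k3, k4⟩ := hCmem i p hp
      rw [Finset.mem_Icc]
      exact ⟨(in_prime k1).one_lt.le, k3⟩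
    refine (Finset.card_le_card h3).trans ?_
    rw [Nat.card_Icc]
    omega
  have hbox := hB hE hL f J J1 (fun i : J => CC I z H i) (fun i : J => XX H (i.1 / 8)) κ S₀ hκ
    hcard hHB (fun u hu => ⟨in_prime (h₀O u hu), hne2 u (h₀O u hu)⟩) (fun i p hp => by
      obtain ⟨k1, k2, k3, k4⟩ := hCmem i p hp
      refine ⟨in_prime k1, hne2 p k1, fun h => ?_, ?_⟩
      · have := h₀ p h
        omega
      · rw [hmJ1, k4]) hdis (by
      obtain ⟨i, hi, h2⟩ := c7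
      exact ⟨⟨i, hi⟩, fun h => h2 ((hmJ1 _).1 h)⟩)
  have e1 : (((Fintype.piFinset fun i : J => CC I z H i).filter
      fun p => Nd S₀ (univ.image p) ∧ Gd f (S₀ ∪ univ.image p)).card) =
      ((RR I K X z H k V).filter fun S => ky z H S = (S₀, J) ∧
        (Nd (sm z S) (la z S) ∧ Gd f S)).card := by
    refine Eq.trans (fcc ?_) ((key_bij hI hH hkey (fun S => Nd (sm z S) (la z S) ∧ Gd f S)).trans
      (fcc fun _ _ => Iff.rfl))
    intro p hp
    rw [Fintype.mem_piFinset] at hp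
    rw [sm_fill hH h₀ hp, la_fill hH h₀ hp]
  have e2 : (((Fintype.piFinset fun i : J => CC I z H i).filter
      fun p => Nd S₀ (univ.image p)).card) =
      ((RR I K X z H k V).filter fun S => ky z H S = (S₀, J) ∧ Nd (sm z S) (la z S)).card := by
    refine Eq.trans (fcc ?_) ((key_bij hI hH hkey (fun S => Nd (sm z S) (la z S))).trans
      (fcc fun _ _ => Iff.rfl))
    intro p hp
    rw [Fintype.mem_piFinset] at hp
    rw [sm_fill hH h₀ hp, la_fill hH h₀ hp]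
  rw [← e1, ← e2]
  have e3 : (((Fintype.piFinset fun i : J => CC I z H i).filter
      fun p => Nd S₀ (univ.image p)).card : ℝ) ≤
      (((RR I K X z H k V).filter fun S => ky z H S = (S₀, J) ∧ True).card : ℝ) := by
    rw [e2]
    have : (RR I K X z H k V).filter (fun S => ky z H S = (S₀, J) ∧ Nd (sm z S) (la z S)) ⊆
        (RR I K X z H k V).filter fun S => ky z H S = (S₀, J) ∧ True := by
      intro S hS
      rw [Finset.mem_filter] at hS ⊢
      exact ⟨hS.1, hS.2.1, trivial⟩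
    exact_mod_cast Finset.card_le_card this
  have hbox' : |(((Fintype.piFinset fun i : J => CC I z H i).filter
      fun p => Nd S₀ (univ.image p) ∧ Gd f (S₀ ∪ univ.image p)).card : ℝ) -
      c2 * (((Fintype.piFinset fun i : J => CC I z H i).filter
      fun p => Nd S₀ (univ.image p)).card : ℝ)| ≤
    2 * (4 ^ S₀.card / 2 ^ J1.card) *
      (((Fintype.piFinset fun i : J => CC I z H i).filter
        fun p => Nd S₀ (univ.image p)).card : ℝ) +
    2 ^ ((2 * S₀.card + 1) * Fintype.card J + (prs J1).card) *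
      (κ * ∏ j : J, ((XX H (j.1 / 8) : ℕ) : ℝ)) := by
    convert hbox
  refine hbox'.trans ?_
  have hr : (4 : ℝ) ^ S₀.card / 2 ^ J1.card ≤ (1 / 2 : ℝ) ^ V := by
    rw [div_le_iff₀ (by positivity), one_div, inv_pow, inv_mul_eq_div, le_div_iff₀ (by positivity)]
    have h4 : (4 : ℝ) ^ S₀.card = 2 ^ (2 * S₀.card) := by
      rw [pow_mul]
      norm_num
    rw [h4, ← pow_add]
    exact pow_le_pow_right₀ (by norm_num) (by omega)
  have hJK : J.card ≤ k := by omega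
  have hSK : S₀.card ≤ k := by omega
  have hprs : (prs J1).card ≤ k * k := by
    refine (Finset.card_le_card (Finset.subset_univ _)).trans ?_
    rw [Finset.card_univ, Fintype.card_prod, hcJ]
    exact Nat.mul_le_mul hJK hJK
  have hN0 : (0 : ℝ) < ((∏ p ∈ S₀, p : ℕ) : ℝ) := by
    exact_mod_cast Finset.prod_pos fun p hp => (in_prime (h₀O p hp)).pos
  have hprod : ∏ j : J, (XX H (j.1 / 8) : ℝ) ≤ X * (1 / ((∏ p ∈ S₀, p : ℕ) : ℝ)) := by
    have h5 : ∏ j : J, (XX H (j.1 / 8) : ℝ) = ((∏ i ∈ J, XX H (i / 8) : ℕ) : ℝ) := by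
      rw [← Finset.prod_coe_sort J (fun i => XX H (i / 8))]
      push_cast
      rfl
    rw [h5, mul_one_div, le_div_iff₀ hN0, mul_comm]
    exact_mod_cast c5
  have hpw : (2 : ℝ) ^ ((2 * S₀.card + 1) * Fintype.card J + (prs J1).card) ≤
      3 ^ (3 * k ^ 2) := by
    rw [hcJ]
    have h5 : (2 * S₀.card + 1) * J.card ≤ (2 * k + 1) * k := Nat.mul_le_mul (by omega) hJK
    have h6 : k ≤ k ^ 2 := by
      rcases Nat.eq_zero_or_pos k with h | h
      · rw [h]; norm_num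
      · nlinarith
    calc (2 : ℝ) ^ ((2 * S₀.card + 1) * J.card + (prs J1).card) ≤ 2 ^ (4 * k ^ 2) := by
          apply pow_le_pow_right₀ (by norm_num)
          nlinarith
      _ = 16 ^ (k ^ 2) := by rw [pow_mul]; norm_num
      _ ≤ 27 ^ (k ^ 2) := pow_le_pow_left₀ (by norm_num) (by norm_num) _
      _ = 3 ^ (3 * k ^ 2) := by rw [pow_mul]; norm_num
  have h0 : (0 : ℝ) ≤ ∏ j : J, (XX H (j.1 / 8) : ℝ) := Finset.prod_nonneg fun _ _ => by positivity
  refine add_le_add ?_ ?_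
  · gcongr
  · calc (2 : ℝ) ^ ((2 * S₀.card + 1) * Fintype.card J + (prs J1).card) *
        (κ * ∏ j : J, ((XX H (j.1 / 8) : ℕ) : ℝ)) ≤
        3 ^ (3 * k ^ 2) * (κ * (X * (1 / ((∏ p ∈ S₀, p : ℕ) : ℝ)))) := by gcongr
      _ = _ := by ring

theorem t_KEY : S_KEY := by
  intro hB1 hE hL hB
  obtain ⟨C₁, hC₁, hb1⟩ := hB1
  refine ⟨C₁, hC₁, ?_⟩
  intro I K f X z H k V N κ hI hX hH hz hκ h1 hN
  set T := (RR I K X z H k V).image (ky z H) with hT
  have hfib : ∀ P : Finset ℕ → Prop, (((RR I K X z H k V).filter fun S => P S).card : ℝ) =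
      ∑ k' ∈ T, (((RR I K X z H k V).filter fun S => ky z H S = k' ∧ P S).card : ℝ) := by
    intro P
    rw [Finset.card_eq_sum_card_fiberwise (f := ky z H) (t := T) (by
      intro S hS
      rw [Finset.mem_coe, Finset.mem_filter] at hS
      exact Finset.mem_coe.2 (Finset.mem_image_of_mem _ hS.1))]
    push_cast
    refine Finset.sum_congr rfl fun k' _ => ?_
    congr 2
    ext S
    simp only [Finset.mem_filter]
    tauto
  have hall : ((RR I K X z H k V).card : ℝ) =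
      ∑ k' ∈ T, (((RR I K X z H k V).filter fun S => ky z H S = k' ∧ True).card : ℝ) := by
    rw [Finset.card_eq_sum_card_fiberwise (f := ky z H) (t := T) (by
      intro S hS
      exact Finset.mem_coe.2 (Finset.mem_image_of_mem _ hS))]
    push_cast
    exact Finset.sum_congr rfl fun k' _ => congrArg _ (fcc fun _ _ => by tauto)
  have q1 : (((RR I K X z H k V).filter fun S => Nd (sm z S) (la z S) ∧ Gd f S).card : ℝ) =
      ∑ k' ∈ T, (((RR I K X z H k V).filter fun S => ky z H S = k' ∧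
        (Nd (sm z S) (la z S) ∧ Gd f S)).card : ℝ) :=
    (congrArg _ (fcc fun _ _ => Iff.rfl)).trans ((hfib fun S => Nd (sm z S) (la z S) ∧ Gd f S).trans
      (Finset.sum_congr rfl fun k' _ => congrArg _ (fcc fun _ _ => Iff.rfl)))
  rw [q1, hfib, Finset.mul_sum, ← Finset.sum_sub_distrib, hall, Finset.mul_sum]
  refine (Finset.abs_sum_le_sum_abs _ _).trans ?_
  have h3 : ∑ k' ∈ T, |(((RR I K X z H k V).filter fun S => ky z H S = k' ∧
      (Nd (sm z S) (la z S) ∧ Gd f S)).card : ℝ) - c2 * (((RR I K X z H k V).filter fun S =>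
      ky z H S = k' ∧ Nd (sm z S) (la z S)).card : ℝ)| ≤
      ∑ k' ∈ T, (2 * (1 / 2 : ℝ) ^ V * (((RR I K X z H k V).filter fun S =>
      ky z H S = k' ∧ True).card : ℝ) +
      (3 ^ (3 * k ^ 2) * κ) * (X * (1 / ((∏ p ∈ k'.1, p : ℕ) : ℝ)))) := by
    refine Finset.sum_le_sum fun k' hk => ?_
    obtain ⟨S₀, J⟩ := k'
    exact per_key hE hL hB hb1 f hI hH hz hκ h1 hk
  refine h3.trans ?_
  rw [Finset.sum_add_distrib]
  refine add_le_add (le_refl _) ?_
  -- the errors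
  set U : Finset ℕ := range (8 * N) with hU
  set A := T.image Prod.fst with hA
  have hAp : ∀ S ∈ A, (∀ p ∈ S, p.Prime) ∧ ∏ p ∈ S, p ≤ X := by
    intro S hS
    rw [hA, Finset.mem_image] at hS
    obtain ⟨⟨S₀, J⟩, hk, rfl⟩ := hS
    obtain ⟨h₀O, h₀, hJi, hCd, hJf⟩ := key_facts hI hH hk
    refine ⟨fun p hp => in_prime (h₀O p hp), ?_⟩
    have h4 : 1 ≤ ∏ i ∈ J, XX H (i / 8) := by
      apply Nat.one_le_iff_ne_zero.2
      rw [Finset.prod_ne_zero_iff]
      intro i hi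
      have := (hJf i hi).2.1
      omega
    calc ∏ p ∈ S₀, p = (∏ p ∈ S₀, p) * 1 := (mul_one _).symm
      _ ≤ (∏ p ∈ S₀, p) * ∏ i ∈ J, XX H (i / 8) := Nat.mul_le_mul_left _ h4
      _ ≤ X := hCd.2.2.2.1
  have hsub : T ⊆ A ×ˢ (U.powerset.filter fun J => J.card ≤ k) := by
    intro k' hk
    obtain ⟨S₀, J⟩ := k'
    rw [Finset.mem_product, Finset.mem_filter, Finset.mem_powerset]
    obtain ⟨h₀O, h₀, hJi, hCd, hJf⟩ := key_facts hI hH hk
    have hc := hCd.2.2.1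
    refine ⟨Finset.mem_image_of_mem _ hk, ?_, by simp only; omega⟩
    intro i hi
    obtain ⟨k1, k2, q, hq, hzq, hqX, hqi⟩ := hJf i hi
    rw [hU, Finset.mem_range]
    have hH0 : (0 : ℝ) < H := by exact_mod_cast hH
    have hq0 : (0 : ℝ) < q := by exact_mod_cast hq.pos
    have h4 : (H : ℝ) * Real.log q ≤ H * Real.log X := by
      apply mul_le_mul_of_nonneg_left _ hH0.le
      exact Real.log_le_log hq0 (by exact_mod_cast hqX)
    have h5 : ((⌊(H : ℝ) * Real.log q⌋₊ : ℕ) : ℝ) < N :=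
      (Nat.floor_le (mul_nonneg hH0.le (Real.log_natCast_nonneg q))).trans_lt (h4.trans_lt hN)
    have h6 : jj H q < N := by
      unfold jj
      exact_mod_cast h5
    have h7 := ph_div H q
    rw [hqi] at h7
    omega
  have hX0 : (0 : ℝ) ≤ X := Nat.cast_nonneg X
  have hcU : ((U.powerset.filter fun J => J.card ≤ k).card : ℝ) ≤ (9 * N + 9 : ℝ) ^ k := by
    have h4 := card_sub U k
    have h5 : U.card = 8 * N := by
      rw [hU, Finset.card_range]
    rw [h5] at h4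
    have h6 : ((U.powerset.filter fun J => J.card ≤ k).card : ℝ) ≤ ((8 * N + 1 : ℕ) : ℝ) ^ k := by
      exact_mod_cast h4
    refine h6.trans ?_
    apply pow_le_pow_left₀ (by positivity)
    push_cast
    have : (0 : ℝ) ≤ N := Nat.cast_nonneg N
    linarith
  calc ∑ k' ∈ T, (3 ^ (3 * k ^ 2) * κ) * (X * (1 / ((∏ p ∈ k'.1, p : ℕ) : ℝ)))
      ≤ ∑ k' ∈ A ×ˢ (U.powerset.filter fun J => J.card ≤ k),
        (3 ^ (3 * k ^ 2) * κ) * (X * (1 / ((∏ p ∈ k'.1, p : ℕ) : ℝ))) :=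
        Finset.sum_le_sum_of_subset_of_nonneg hsub fun _ _ _ => by positivity
    _ = ((U.powerset.filter fun J => J.card ≤ k).card : ℝ) * ((3 ^ (3 * k ^ 2) * κ) *
        (X * ∑ S ∈ A, 1 / ((∏ p ∈ S, p : ℕ) : ℝ))) := by
        rw [Finset.sum_product]
        simp only [Finset.sum_const, nsmul_eq_mul]
        rw [← Finset.mul_sum, ← Finset.mul_sum, ← Finset.mul_sum]
    _ ≤ (9 * N + 9 : ℝ) ^ k * ((3 ^ (3 * k ^ 2) * κ) * (X * (1 + Real.log X))) := by
        have h4 := sum_inv hAp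
        have h5 : (0 : ℝ) ≤ ∑ S ∈ A, 1 / ((∏ p ∈ S, p : ℕ) : ℝ) :=
          Finset.sum_nonneg fun _ _ => by positivity
        gcongr
    _ = (9 * N + 9 : ℝ) ^ k * (3 ^ (3 * k ^ 2) * κ) * (X * (1 + Real.log X)) := by ring

end Pool.Agent.Y697.CQ
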