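import Pool.Agent.Y703.CQ.Stm
import Pool.Agent.Y697.CX.Ke2

/-!
# CQ-KEY: the sum over the boxes
-/

set_option autoImplicit false

namespace Pool.Agent.Y697.CQ

open Finset
open Pool.Agent.Y703.CX (sm la jj XX)
open Pool.Agent.Y703.CQ
open Pool.Agent.Y697.CX (le_XX sm_union sm_disj prod_split card_split fcc root_le card_sub sum_inv)
open scoped Classical

theorem in_prime {I : Finset ℕ} {p : ℕ} (h : Sp p ∨ In I p) : p.Prime := by
  rcases h with h | h
  · exact h.1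
  · exact h.1

theorem in_mod {I K : Finset ℕ} (hI : Ok I K) {p : ℕ} (h : Sp p ∨ In I p) :
    p % 8 = 1 ∨ p % 8 = 3 ∨ p % 8 = 5 := by
  rcases h with h | h
  · exact Or.inl h.2.1
  · have h1 := h.2.2.1
    rcases hI.1 with h2 | h2
    · rw [h2, Finset.mem_singleton] at h1
      exact Or.inr (Or.inr h1)
    · rw [h2, Finset.mem_insert, Finset.mem_singleton] at h1
      exact Or.inr h1

theorem mem_SS {I K : Finset ℕ} {X : ℕ} {S : Finset ℕ} :
    S ∈ SS I K X ↔ Cl I K S ∧ ∏ p ∈ S, p ≤ X := by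
  unfold SS
  rw [Finset.mem_filter, Finset.mem_powerset]
  constructor
  · exact fun h => h.2
  · intro h
    refine ⟨fun p hp => ?_, h⟩
    rw [Finset.mem_range]
    have h1 : p ≤ ∏ q ∈ S, q :=
      Finset.single_le_prod' (f := fun q => q) (fun q hq => (in_prime (h.1.1 q hq)).one_lt.le) hp
    omega

/-- the label of a large prime -/
noncomputable def ph (H p : ℕ) : ℕ := 8 * jj H p + p % 8

theorem ph_div (H p : ℕ) : ph H p / 8 = jj H p := by
  unfold ph; omega

theorem ph_mod (H p : ℕ) : ph H p % 8 = p % 8 := by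
  unfold ph; omega

/-- the key of a set -/
noncomputable def ky (z H : ℕ) (S : Finset ℕ) : Finset ℕ × Finset ℕ :=
  (sm z S, (la z S).image (ph H))

/-- the primes of a block -/
noncomputable def CC (I : Finset ℕ) (z H k : ℕ) : Finset ℕ :=
  (range (XX H (k / 8) + 1)).filter fun p => (Sp p ∨ In I p) ∧ z < p ∧ ph H p = k

theorem mem_CC {I : Finset ℕ} {z H : ℕ} (hH : 1 ≤ H) {k p : ℕ} :
    p ∈ CC I z H k ↔ (Sp p ∨ In I p) ∧ z < p ∧ ph H p = k := by
  unfold CC
  rw [Finset.mem_filter, Finset.mem_range]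
  constructor
  · exact fun h => h.2
  · intro h
    refine ⟨?_, h⟩
    have := le_XX hH (in_prime h.1).one_lt.le
    have h1 : jj H p = k / 8 := by rw [← h.2.2, ph_div]
    rw [h1] at this
    omega

/-- the conditions on a key -/
def Cd (K : Finset ℕ) (X k V H : ℕ) (S₀ J : Finset ℕ) : Prop :=
  ((S₀.filter fun p => p % 8 = 5).card + (J.filter fun i => i % 8 = 5).card) % 2 = 0 ∧
  ((S₀.filter fun p => p % 8 = 3).card + (J.filter fun i => i % 8 = 3).card) % 2 ∈ K ∧
  S₀.card + J.card ≤ k ∧ (∏ p ∈ S₀, p) * ∏ i ∈ J, XX H (i / 8) ≤ X ∧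
  2 * S₀.card + V < (J.filter fun i => i % 8 = 1).card ∧ ∃ i ∈ J, i % 8 ≠ 1

theorem ph_inj {H : ℕ} {L : Finset ℕ} (h : Set.InjOn (jj H) (L : Set ℕ)) :
    Set.InjOn (ph H) (L : Set ℕ) := fun a ha b hb hab => h ha hb (by
  rw [← ph_div, ← ph_div, hab])

theorem prod_ph {M : Type} [CommMonoid M] {H : ℕ} {L : Finset ℕ}
    (h : Set.InjOn (jj H) (L : Set ℕ)) (f : ℕ → M) :
    ∏ i ∈ L.image (ph H), f i = ∏ p ∈ L, f (ph H p) :=
  Finset.prod_image fun a ha b hb hab => ph_inj h ha hb hab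

theorem card_ph {H : ℕ} {L : Finset ℕ} (h : Set.InjOn (jj H) (L : Set ℕ)) (P : ℕ → Prop)
    (Q : ℕ → Prop) (hPQ : ∀ p, P p ↔ Q (ph H p)) :
    ((L.image (ph H)).filter Q).card = (L.filter P).card := by
  rw [Finset.filter_image, Finset.card_image_of_injOn]
  · congr 1
    ext p
    simp only [Finset.mem_filter, hPQ]
  · intro a ha b hb hab
    rw [Finset.mem_coe, Finset.mem_filter] at ha hb
    exact ph_inj h ha.1 hb.1 hab

theorem mem_RR {I K : Finset ℕ} {X z H k V : ℕ} (hH : 1 ≤ H) {S : Finset ℕ} :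
    S ∈ RR I K X z H k V ↔ (∀ p ∈ S, Sp p ∨ In I p) ∧ Set.InjOn (jj H) (la z S : Set ℕ) ∧
      Cd K X k V H (ky z H S).1 (ky z H S).2 := by
  unfold RR
  rw [Finset.mem_filter, mem_SS]
  have hk1 : (ky z H S).1 = sm z S := rfl
  have hk2 : (ky z H S).2 = (la z S).image (ph H) := rfl
  rw [hk1, hk2]
  have key : Set.InjOn (jj H) (la z S : Set ℕ) →
      ((S.filter fun p => p % 8 = 5).card = ((sm z S).filter fun p => p % 8 = 5).card +
        (((la z S).image (ph H)).filter fun i => i % 8 = 5).card) ∧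
      ((S.filter fun p => p % 8 = 3).card = ((sm z S).filter fun p => p % 8 = 3).card +
        (((la z S).image (ph H)).filter fun i => i % 8 = 3).card) ∧
      (S.card = (sm z S).card + ((la z S).image (ph H)).card) ∧
      (∏ i ∈ (la z S).image (ph H), XX H (i / 8) = ∏ p ∈ la z S, XX H (jj H p)) ∧
      ((((la z S).image (ph H)).filter fun i => i % 8 = 1).card =
        ((la z S).filter fun p => p % 8 = 1).card) ∧
      ((∃ i ∈ (la z S).image (ph H), i % 8 ≠ 1) ↔ ∃ p ∈ la z S, p % 8 ≠ 1) := by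
    intro h
    refine ⟨?_, ?_, ?_, ?_, ?_, ?_⟩
    · rw [card_split z]
      congr 1
      convert (card_ph h (fun p => p % 8 = 5) (fun i => i % 8 = 5)
        (fun p => by rw [ph_mod])).symm
    · rw [card_split z]
      congr 1
      convert (card_ph h (fun p => p % 8 = 3) (fun i => i % 8 = 3)
        (fun p => by rw [ph_mod])).symm
    · rw [Finset.card_image_of_injOn (ph_inj h), ← Finset.card_union_of_disjoint (sm_disj z S),
        sm_union]
    · rw [prod_ph h]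
      exact Finset.prod_congr rfl fun p _ => by rw [ph_div]
    · convert card_ph h (fun p => p % 8 = 1) (fun i => i % 8 = 1) (fun p => by rw [ph_mod])
    · constructor
      · rintro ⟨i, hi, h1⟩
        rw [Finset.mem_image] at hi
        obtain ⟨p, hp, rfl⟩ := hi
        exact ⟨p, hp, by rwa [ph_mod] at h1⟩
      · rintro ⟨p, hp, h1⟩
        exact ⟨ph H p, Finset.mem_image_of_mem _ hp, by rwa [ph_mod]⟩
  unfold Cl Cd
  constructor
  · rintro ⟨⟨⟨h1, h2, h3⟩, h5⟩, h6, h7, h8, h9, h10⟩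
    obtain ⟨k1, k2, k3, k4, k5, k6⟩ := key h6
    refine ⟨h1, h6, ?_, ?_, ?_, ?_, ?_, ?_⟩
    · rw [← k1]; exact h2
    · rw [← k2]; exact h3
    · rw [← k3]; exact h7
    · rw [k4]; exact h8
    · rw [k5]; exact h9
    · rw [k6]; exact h10
  · rintro ⟨h1, h6, h2, h3, h7, h8, h9, h10⟩
    obtain ⟨k1, k2, k3, k4, k5, k6⟩ := key h6
    rw [← k1] at h2
    rw [← k2] at h3
    rw [← k3] at h7
    rw [k4] at h8
    rw [k5] at h9
    rw [k6] at h10
    refine ⟨⟨⟨h1, h2, h3⟩, ?_⟩, h6, h7, h8, h9, h10⟩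
    refine le_trans ?_ h8
    rw [prod_split z S]
    apply Nat.mul_le_mul_left
    exact Finset.prod_le_prod' fun p hp =>
      le_XX hH (in_prime (h1 p (Finset.mem_filter.1 hp).1)).one_lt.le

section fill
variable {I : Finset ℕ} {z H : ℕ} {S₀ : Finset ℕ} {J : Finset ℕ} {p : J → ℕ}

theorem sm_fill (hH : 1 ≤ H) (h₀ : ∀ q ∈ S₀, q ≤ z) (hp : ∀ i : J, p i ∈ CC I z H i) :
    sm z (S₀ ∪ univ.image p) = S₀ := by
  ext q
  unfold sm
  rw [Finset.mem_filter, Finset.mem_union, Finset.mem_image]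
  constructor
  · rintro ⟨h | ⟨i, -, rfl⟩, h2⟩
    · exact h
    · have := ((mem_CC hH).1 (hp i)).2.1
      omega
  · exact fun h => ⟨Or.inl h, h₀ q h⟩

theorem la_fill (hH : 1 ≤ H) (h₀ : ∀ q ∈ S₀, q ≤ z) (hp : ∀ i : J, p i ∈ CC I z H i) :
    la z (S₀ ∪ univ.image p) = univ.image p := by
  ext q
  unfold la
  rw [Finset.mem_filter, Finset.mem_union, Finset.mem_image]
  constructor
  · rintro ⟨h | h, h2⟩
    · exact absurd (h₀ q h) h2
    · exact h
  · rintro ⟨i, -, rfl⟩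
    have := ((mem_CC hH).1 (hp i)).2.1
    exact ⟨Or.inr ⟨i, Finset.mem_univ _, rfl⟩, by omega⟩

theorem ph_fill (hH : 1 ≤ H) (hp : ∀ i : J, p i ∈ CC I z H i) :
    (univ.image p).image (ph H) = J := by
  ext k
  rw [Finset.mem_image]
  constructor
  · rintro ⟨q, hq, rfl⟩
    rw [Finset.mem_image] at hq
    obtain ⟨i, -, rfl⟩ := hq
    rw [((mem_CC hH).1 (hp i)).2.2]
    exact i.2
  · intro hk
    exact ⟨p ⟨k, hk⟩, Finset.mem_image_of_mem _ (Finset.mem_univ _),
      ((mem_CC hH).1 (hp ⟨k, hk⟩)).2.2⟩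

theorem inj_fill (hH : 1 ≤ H) (hp : ∀ i : J, p i ∈ CC I z H i) : Function.Injective p := by
  intro i j hij
  have h1 := ((mem_CC hH).1 (hp i)).2.2
  have h2 := ((mem_CC hH).1 (hp j)).2.2
  rw [hij, h2] at h1
  exact Subtype.ext h1.symm

theorem ky_fill (hH : 1 ≤ H) (h₀ : ∀ q ∈ S₀, q ≤ z) (hp : ∀ i : J, p i ∈ CC I z H i) :
    ky z H (S₀ ∪ univ.image p) = (S₀, J) := by
  unfold ky
  rw [sm_fill hH h₀ hp, la_fill hH h₀ hp, ph_fill hH hp]

end fill

/-- the facts on the key of a regular set -/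
theorem key_facts {I K : Finset ℕ} {X z H k V : ℕ} (hI : Ok I K) (hH : 1 ≤ H)
    {S₀ J : Finset ℕ} (hkey : (S₀, J) ∈ (RR I K X z H k V).image (ky z H)) :
    (∀ q ∈ S₀, Sp q ∨ In I q) ∧ (∀ q ∈ S₀, q ≤ z) ∧ Set.InjOn (fun i : ℕ => i / 8) (J : Set ℕ) ∧
      Cd K X k V H S₀ J ∧ (∀ i ∈ J, (i % 8 = 1 ∨ i % 8 = 3 ∨ i % 8 = 5) ∧ z ≤ XX H (i / 8) ∧
        ∃ q : ℕ, q.Prime ∧ z < q ∧ q ≤ X ∧ ph H q = i) := by
  rw [Finset.mem_image] at hkey
  obtain ⟨W, hW, hWk⟩ := hkey
  have hWX : ∏ p ∈ W, p ≤ X := by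
    unfold RR at hW
    rw [Finset.mem_filter, mem_SS] at hW
    exact hW.1.2
  rw [mem_RR hH, hWk] at hW
  obtain ⟨h1, h2, h3⟩ := hW
  have hS₀ : sm z W = S₀ := congrArg Prod.fst hWk
  have hJ : (la z W).image (ph H) = J := congrArg Prod.snd hWk
  refine ⟨?_, ?_, ?_, h3, ?_⟩
  · intro q hq
    rw [← hS₀] at hq
    exact h1 q (Finset.mem_filter.1 hq).1
  · intro q hq
    rw [← hS₀] at hq
    exact (Finset.mem_filter.1 hq).2
  · intro a ha b hb hab
    rw [Finset.mem_coe, ← hJ, Finset.mem_image] at ha hb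
    obtain ⟨x, hx, rfl⟩ := ha
    obtain ⟨y, hy, rfl⟩ := hb
    simp only [ph_div] at hab
    have h4 : x = y := h2 (Finset.mem_coe.2 hx) (Finset.mem_coe.2 hy) hab
    rw [h4]
  · intro i hi
    rw [← hJ, Finset.mem_image] at hi
    obtain ⟨q, hq, rfl⟩ := hi
    have hqW := (Finset.mem_filter.1 hq).1
    have hqz := (Finset.mem_filter.1 hq).2
    have hqI := h1 q hqW
    have hqp := in_prime hqI
    have hqX : q ≤ X := (Finset.single_le_prod' (f := fun q => q)
      (fun q hq => (in_prime (h1 q hq)).one_lt.le) hqW).trans hWX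
    refine ⟨?_, ?_, q, hqp, by omega, hqX, rfl⟩
    · rw [ph_mod]
      exact in_mod hI hqI
    · rw [ph_div]
      have := le_XX hH hqp.one_lt.le
      omega

theorem key_bij {I K : Finset ℕ} {X z H k V : ℕ} (hI : Ok I K) (hH : 1 ≤ H) {S₀ J : Finset ℕ}
    (hkey : (S₀, J) ∈ (RR I K X z H k V).image (ky z H)) (P : Finset ℕ → Prop) :
    ((Fintype.piFinset fun i : J => CC I z H i).filter fun p => P (S₀ ∪ univ.image p)).card =
      ((RR I K X z H k V).filter fun S => ky z H S = (S₀, J) ∧ P S).card := by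
  obtain ⟨h₀O, h₀, hJi, hCd, hJf⟩ := key_facts hI hH hkey
  apply Finset.card_bij (fun (p : J → ℕ) _ => S₀ ∪ univ.image p)
  · intro p hp
    rw [Finset.mem_filter, Fintype.mem_piFinset] at hp
    obtain ⟨hp, hP⟩ := hp
    have hk := ky_fill hH h₀ hp
    rw [Finset.mem_filter]
    refine ⟨?_, hk, hP⟩
    rw [mem_RR hH, hk]
    refine ⟨?_, ?_, hCd⟩
    · intro q hq
      rw [Finset.mem_union, Finset.mem_image] at hq
      rcases hq with hq | ⟨i, -, rfl⟩
      · exact h₀O q hq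
      · exact ((mem_CC hH).1 (hp i)).1
    · rw [la_fill hH h₀ hp]
      intro a ha b hb hab
      rw [Finset.mem_coe, Finset.mem_image] at ha hb
      obtain ⟨i, -, rfl⟩ := ha
      obtain ⟨j, -, rfl⟩ := hb
      have h1 := ((mem_CC hH).1 (hp i)).2.2
      have h2 := ((mem_CC hH).1 (hp j)).2.2
      have h3 : i.1 / 8 = j.1 / 8 := by
        rw [← h1, ← h2, ph_div, ph_div]
        exact hab
      have h4 : i = j := Subtype.ext (hJi (Finset.mem_coe.2 i.2) (Finset.mem_coe.2 j.2) h3)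
      rw [h4]
  · intro p hp p' hp' h
    rw [Finset.mem_filter, Fintype.mem_piFinset] at hp hp'
    have h1 := la_fill hH h₀ hp.1
    rw [h, la_fill hH h₀ hp'.1] at h1
    funext i
    have h2 : p i ∈ univ.image p' := by
      rw [h1]
      exact Finset.mem_image_of_mem _ (Finset.mem_univ _)
    rw [Finset.mem_image] at h2
    obtain ⟨j, -, hj⟩ := h2
    have h3 := ((mem_CC hH).1 (hp.1 i)).2.2
    have h4 := ((mem_CC hH).1 (hp'.1 j)).2.2
    rw [hj, h3] at h4
    rw [← hj, Subtype.ext h4]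
  · intro S hS
    rw [Finset.mem_filter] at hS
    obtain ⟨hSR, hSk, hSP⟩ := hS
    rw [mem_RR hH] at hSR
    obtain ⟨hSO, hSI, -⟩ := hSR
    have hk1 : sm z S = S₀ := congrArg Prod.fst hSk
    have hk2 : (la z S).image (ph H) = J := congrArg Prod.snd hSk
    have hex : ∀ i : J, ∃ q ∈ la z S, ph H q = i := by
      rintro ⟨i, hi⟩
      rw [← hk2, Finset.mem_image] at hi
      exact hi
    choose p hp1 hp2 using hex
    have him : univ.image p = la z S := by
      ext q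
      rw [Finset.mem_image]
      constructor
      · rintro ⟨i, -, rfl⟩
        exact hp1 i
      · intro hq
        have hjq : ph H q ∈ J := by
          rw [← hk2]
          exact Finset.mem_image_of_mem _ hq
        exact ⟨⟨ph H q, hjq⟩, Finset.mem_univ _, ph_inj hSI (Finset.mem_coe.2 (hp1 _))
          (Finset.mem_coe.2 hq) (hp2 ⟨ph H q, hjq⟩)⟩
    have hSe : S₀ ∪ univ.image p = S := by rw [him, ← hk1, sm_union]
    refine ⟨p, ?_, hSe⟩
    rw [Finset.mem_filter, Fintype.mem_piFinset, hSe]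
    refine ⟨fun i => (mem_CC hH).2 ⟨hSO _ (Finset.mem_filter.1 (hp1 i)).1,
      not_le.1 (Finset.mem_filter.1 (hp1 i)).2, hp2 i⟩, hSP⟩

end Pool.Agent.Y697.CQ
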